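import Pool.Agent.helper67.GV.Spec

/-!
# gv:UPR (helper31)
-/

set_option autoImplicit false

open Finset Filter Topology

namespace Pool.Agent.helper67.GV

open Pool.Agent.helper21.GR

/-- the extended weight function -/
noncomputable def UPR_G (T : ℕ) (g : ℕ → ℝ) (a : ℕ) : ℝ := if a = 0 then 0 else g (min a T)

lemma UPR_G_nonneg (T : ℕ) (g : ℕ → ℝ) (hT : 1 ≤ T) (h1 : ∀ a : ℕ, 1 ≤ a → a ≤ T → 1 ≤ g a)
    (a : ℕ) : 0 ≤ UPR_G T g a := by
  unfold UPR_G
  split_ifs with h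
  · exact le_rfl
  · exact le_trans zero_le_one (h1 _ (by omega) (by omega))

lemma UPR_G_mono (T : ℕ) (g : ℕ → ℝ) (hT : 1 ≤ T) (h1 : ∀ a : ℕ, 1 ≤ a → a ≤ T → 1 ≤ g a)
    (h2 : ∀ a a' : ℕ, 1 ≤ a → a ≤ a' → a' ≤ T → g a ≤ g a') (a b : ℕ) (hab : a ≤ b) :
    UPR_G T g a ≤ UPR_G T g b := by
  by_cases ha : a = 0
  · rw [show UPR_G T g a = 0 by unfold UPR_G; rw [if_pos ha]]
    exact UPR_G_nonneg T g hT h1 b
  · unfold UPR_G
    rw [if_neg ha, if_neg (by omega)]
    exact h2 _ _ (by omega) (by omega) (by omega)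

lemma UPR_G_eq (T : ℕ) (g : ℕ → ℝ) (a : ℕ) (ha : 1 ≤ a) (haT : a ≤ T) : UPR_G T g a = g a := by
  unfold UPR_G
  rw [if_neg (by omega), min_eq_left haT]

lemma UPR_two (T : ℕ) (g : ℕ → ℝ) (hT : 1 ≤ T) (hg : IsWeight T g)
    (h1 : ∀ a : ℕ, 1 ≤ a → a ≤ T → 1 ≤ g a) {n : ℕ} (r : Fin n → Fin n → Prop)
    (hs : ∀ u v, r u v → r v u) (S : Finset (Fin n)) (x y : Fin n → ℕ) (hx : ∀ v, 1 ≤ x v)
    (hy : ∀ v, 1 ≤ y v) (a b : ℕ) (ha : a ≤ T) (hb : b ≤ T) (Hx : Bd r S x a)
    (Hy : Bd (fun u v => ¬ r u v) S y b) :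
    ∑ v ∈ S, UPR_G T g (x v) * UPR_G T g (y v) ≤ UPR_G T g a * UPR_G T g b := by
  rcases S.eq_empty_or_nonempty with rfl | hne
  · rw [Finset.sum_empty]
    exact mul_nonneg (UPR_G_nonneg T g hT h1 a) (UPR_G_nonneg T g hT h1 b)
  · obtain ⟨v₀, hv₀⟩ := hne
    have ha1 : 1 ≤ a := (hx v₀).trans (Hx.single hv₀)
    have hb1 : 1 ≤ b := (hy v₀).trans (Hy.single hv₀)
    have e := S.equivFin
    have hcl : ∀ (ρ : Fin n → Fin n → Prop) (w : Fin n → ℕ) (c : ℕ), Bd ρ S w c →
        ∀ Q : Finset (Fin S.card), (∀ u ∈ Q, ∀ v ∈ Q, u ≠ v →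
          ρ (e.symm u).1 (e.symm v).1) → ∑ v ∈ Q, w (e.symm v).1 ≤ c := by
      intro ρ w c hB Q hQ
      have hinj : Function.Injective (fun u : Fin S.card => (e.symm u).1) :=
        Subtype.val_injective.comp e.symm.injective
      have h3 := hB (Q.map ⟨fun u : Fin S.card => (e.symm u).1, hinj⟩) (by
        intro u hu
        rw [Finset.mem_map] at hu
        obtain ⟨i, _, rfl⟩ := hu
        exact (e.symm i).2) (by
        intro u hu v hv huv
        rw [Finset.mem_map] at hu hv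
        obtain ⟨i, hi, rfl⟩ := hu
        obtain ⟨j, hj, rfl⟩ := hv
        exact hQ i hi j hj (fun h => huv (by rw [h])))
      rw [Finset.sum_map] at h3
      exact h3
    have h2 := hg.2 S.card (fun u v => r (e.symm u).1 (e.symm v).1)
      (fun u => x (e.symm u).1) (fun u => y (e.symm u).1) a b (Finset.card_pos.2 ⟨v₀, hv₀⟩)
      (fun u v h => hs _ _ h) (fun v => ⟨hx _, hy _⟩) ha hb
      (fun Q hQ => hcl r x a Hx Q hQ)
      (fun Q hQ => hcl (fun u v => ¬ r u v) y b Hy Q hQ)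
    rw [UPR_G_eq T g a ha1 ha, UPR_G_eq T g b hb1 hb]
    refine le_trans (le_of_eq ?_) h2
    have h3 : ∑ v ∈ S, UPR_G T g (x v) * UPR_G T g (y v) = ∑ v ∈ S, g (x v) * g (y v) := by
      refine Finset.sum_congr rfl fun v hv => ?_
      rw [UPR_G_eq T g (x v) (hx v) ((Hx.single hv).trans ha),
        UPR_G_eq T g (y v) (hy v) ((Hy.single hv).trans hb)]
    rw [h3, ← Finset.sum_coe_sort S]
    exact (Equiv.sum_comp e.symm (fun v : S => g (x v.1) * g (y v.1))).symm

theorem UPR (hWMO : WMO_stmt) : UPR_stmt := by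
  classical
  intro T g hT hg k n hk f hf hgal hno
  obtain ⟨hmono, hone⟩ := hWMO T g (by omega) hg
  have hT1 : 1 ≤ T := by omega
  have hG1 : UPR_G T g 1 = 1 := by rw [UPR_G_eq T g 1 le_rfl hT1, hg.1]
  have htwo : TwoIneq (Fin n) T (fun A : Fin (k + 1) → ℕ => ∏ l, UPR_G T g (A l)) := by
    intro i j hij A hA r hs S x y hx hy Hx Hy
    have h1 := UPR_two T g hT1 hg hone r hs S x y hx hy (A i) (A j) (hA i) (hA j) Hx Hy
    have hprod : ∀ B : Fin (k + 1) → ℕ, ∏ l, UPR_G T g (B l) =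
        UPR_G T g (B i) * UPR_G T g (B j) *
          ∏ l ∈ (Finset.univ.erase i).erase j, UPR_G T g (B l) := by
      intro B
      rw [mul_assoc, Finset.mul_prod_erase (Finset.univ.erase i) (fun l => UPR_G T g (B l))
        (Finset.mem_erase.2 ⟨hij.symm, Finset.mem_univ j⟩),
        Finset.mul_prod_erase Finset.univ (fun l => UPR_G T g (B l)) (Finset.mem_univ i)]
    have h2 : ∀ v, ∏ l, UPR_G T g (Function.update (Function.update A i (x v)) j (y v) l) =
        UPR_G T g (x v) * UPR_G T g (y v) *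
          ∏ l ∈ (Finset.univ.erase i).erase j, UPR_G T g (A l) := by
      intro v
      rw [hprod]
      congr 1
      · rw [Function.update_self, Function.update_of_ne hij, Function.update_self]
      · apply Finset.prod_congr rfl
        intro l hl
        rw [Finset.mem_erase, Finset.mem_erase] at hl
        rw [Function.update_of_ne hl.1, Function.update_of_ne hl.2.1]
    show ∑ v ∈ S, ∏ l, UPR_G T g (Function.update (Function.update A i (x v)) j (y v) l) ≤
      ∏ l, UPR_G T g (A l)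
    rw [Finset.sum_congr rfl (fun v _ => h2 v), ← Finset.sum_mul, hprod A]
    apply mul_le_mul_of_nonneg_right h1
    exact Finset.prod_nonneg (fun l _ => UPR_G_nonneg T g hT1 hone _)
  have h1 := size_le (t := T + 1) rfl hk hT1
    (F := fun A : Fin (k + 1) → ℕ => ∏ l, UPR_G T g (A l))
    (fun A B hAB => Finset.prod_le_prod (fun l _ => UPR_G_nonneg T g hT1 hone _)
      (fun l _ => UPR_G_mono T g hT1 hone hmono _ _ (hAB l)))
    htwo f hf hgal hno
  simp only [hG1, Finset.prod_const_one, mul_one] at h1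
  refine h1.trans (le_of_eq ?_)
  rw [Fin.prod_univ_castSucc]
  have h2 : ∀ i : Fin k, UPR_G T g (if i.castSucc = Fin.last k then 1 else T) = g T := by
    intro i
    rw [if_neg (Fin.castSucc_lt_last _).ne, UPR_G_eq T g T hT1 le_rfl]
  rw [Finset.prod_congr rfl (fun i _ => h2 i), Finset.prod_const, Finset.card_univ,
    Fintype.card_fin, if_pos rfl, hG1, mul_one]

end Pool.Agent.helper67.GV
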